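import Pool.Agent.MP_81f5b7_pr.H66.Spec

/-! Small self-contained colourings up to just above the threshold. -/

set_option linter.unusedSectionVars false

namespace Pool.Agent.MP_81f5b7_pr.H66

open Finset
open scoped Classical

namespace AUT

/-- processed vertices, reached vertices, colours, failure -/
structure Xs (V : Type) where
  P : Finset V
  R : Finset V
  χ : V → C3
  f : Prop

variable {V : Type} [Fintype V] [DecidableEq V] (τ : V → C3) (Z : Finset V) (K : ℕ) (v₀ : V)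

/-- the exploration goes on -/
def act (s : Xs V) : Prop := ¬s.f ∧ (s.R \ s.P).Nonempty ∧ s.R.card ≤ K

/-- the next vertex -/
noncomputable def px (s : Xs V) : V := if h : (s.R \ s.P).Nonempty then h.choose else v₀

/-- the vertices that are tested -/
noncomputable def tg (s : Xs V) : Finset V :=
  univ.filter fun y => y ∉ s.P ∧ y ≠ px v₀ s ∧ al τ Z y (s.χ (px v₀ s))

/-- the vertices that are found -/
noncomputable def ht (s : Xs V) (B : Finset (Sym2 V)) : Finset V :=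
  (tg τ Z v₀ s).filter fun y => s(px v₀ s, y) ∈ B

/-- the state after finding `A` -/
noncomputable def st (s : Xs V) (A : Finset V) : Xs V :=
  ⟨insert (px v₀ s) s.P, s.R ∪ A, fun y => if y ∈ s.R then s.χ y else -τ y - s.χ (px v₀ s),
    ∃ y ∈ Z ∪ s.R, y ∈ A⟩

/-- the exploration -/
noncomputable def mc : Mach (Xs V) (Sym2 V) where
  Q s := if act K s then (tg τ Z v₀ s).image fun y => s(px v₀ s, y) else ∅
  nx s B := if act K s then st τ Z v₀ s (ht τ Z v₀ s B) else s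
  fr s := univ.filter fun e => ∀ w ∈ s.P, w ∉ e
  Inv _ := True
  loc s B := by
    split_ifs with h
    · congr 1
      exact filter_congr fun y hy => by
        rw [mem_inter, and_iff_left (mem_image_of_mem _ hy)]
    · rfl
  inv _ _ _ := trivial
  sub s _ := by
    split_ifs with h
    · intro e he
      obtain ⟨y, hy, rfl⟩ := mem_image.1 he
      refine mem_filter.2 ⟨mem_univ _, fun w hw hw' => ?_⟩
      rcases Sym2.mem_iff.1 hw' with rfl | rfl
      · rw [px, dif_pos h.2.1] at hw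
        exact (mem_sdiff.1 h.2.1.choose_spec).2 hw
      · exact (mem_filter.1 hy).2.1 hw
    · exact empty_subset _
  shr s B _ := by
    split_ifs with h
    · intro e he
      have h1 := (mem_filter.1 he).2
      refine mem_sdiff.2 ⟨mem_filter.2 ⟨mem_univ _, fun w hw => h1 w (mem_insert_of_mem hw)⟩,
        fun h2 => ?_⟩
      obtain ⟨y, -, rfl⟩ := mem_image.1 h2
      exact h1 _ (mem_insert_self _ _) (Sym2.mem_mk_left _ _)
    · simp

/-- the potential -/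
noncomputable def pot (r β : ℝ) (s : Xs V) : ℝ :=
  if s.f then 0 else r ^ (s.R \ s.P).card * β ^ s.P.card

variable {τ Z K v₀}

theorem px_mem {s : Xs V} (h : act K s) : px v₀ s ∈ s.R \ s.P := by
  rw [px, dif_pos h.2.1]
  exact h.2.1.choose_spec

theorem step {r β p : ℝ} (r0 : 0 ≤ r) (r1 : r ≤ 1) (β0 : 0 ≤ β) (p0 : 0 ≤ p) (p1 : p ≤ 1)
    (h : ∀ c (W : Finset V), (∀ y ∈ W, al τ Z y c) →
      r ≤ β * ((1 - p + p * r) ^ W.card - p * (Z.card + K))) (s : Xs V) :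
    Ex p ((mc τ Z K v₀).Q s) (fun B => -pot r β ((mc τ Z K v₀).nx s B)) ≤ -pot r β s := by
  simp only [mc]
  split_ifs with ha
  swap
  · simp
  have hx := px_mem (v₀ := v₀) ha
  obtain ⟨j, hj⟩ : ∃ j, (s.R \ s.P).card = j + 1 :=
    Nat.exists_eq_succ_of_ne_zero (card_pos.2 ha.2.1).ne'
  have c0 : 0 ≤ r ^ j * β ^ s.P.card := by positivity
  rw [Ex_image fun _ _ _ _ e => Sym2.congr_right.1 e]
  refine (Ex_mono p0 p1 (G := fun A => r ^ j * β ^ s.P.card * β *
    (∑ y ∈ tg τ Z v₀ s ∩ (Z ∪ s.R), ind (y ∈ A) - r ^ (A ∩ tg τ Z v₀ s).card)) fun A hA => ?_).trans ?_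
  · have e : ht τ Z v₀ s (A.image fun y => s(px v₀ s, y)) = A := by
      ext y
      simp only [ht, mem_filter, mem_image, Sym2.congr_right, exists_eq_right]
      exact and_iff_right_of_imp fun h => hA h
    have h1 := pow_le_one₀ (n := A.card) r0 r1
    rw [e, inter_eq_left.2 hA, pot]
    split_ifs with hf
    · obtain ⟨y, hy, hy'⟩ := hf
      rw [neg_zero]
      refine mul_nonneg (mul_nonneg c0 β0) (sub_nonneg.2 (h1.trans ((ind_pos hy').ge.trans ?_)))
      exact single_le_sum (f := fun y => ind (y ∈ A)) (fun _ _ => ind_nonneg _)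
        (mem_inter.2 ⟨hA hy', hy⟩)
    · have h2 : ((s.R ∪ A) \ insert (px v₀ s) s.P).card ≤ j + A.card := by
        refine (card_le_card (t := (s.R \ s.P).erase (px v₀ s) ∪ A) fun y hy => ?_).trans
          ((card_union_le _ _).trans_eq (by rw [card_erase_of_mem hx, hj]; rfl))
        simp only [mem_sdiff, mem_union, mem_insert, mem_erase] at hy ⊢
        tauto
      have h3 := pow_le_pow_of_le_one r0 r1 h2
      have h4 : 0 ≤ ∑ y ∈ tg τ Z v₀ s ∩ (Z ∪ s.R), ind (y ∈ A) := sum_nonneg fun _ _ => ind_nonneg _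
      simp only [st]
      rw [card_insert_of_notMem (mem_sdiff.1 hx).2, pow_succ]
      rw [pow_add] at h3
      nlinarith [mul_nonneg (mul_nonneg c0 β0) h4, mul_le_mul_of_nonneg_right h3
        (mul_nonneg (pow_nonneg β0 s.P.card) β0)]
  · rw [Ex_mul, Ex_sub, Ex_sum, Ex_pow Subset.rfl,
      sum_congr rfl fun y hy => Ex_mem (mem_inter.1 hy).1, sum_const, nsmul_eq_mul, pot,
      if_neg ha.1, hj, pow_succ]
    have h1 := h _ (tg τ Z v₀ s) fun y hy => (mem_filter.1 hy).2.2.2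
    have h2 : ((tg τ Z v₀ s ∩ (Z ∪ s.R)).card : ℝ) ≤ Z.card + K := by
      exact_mod_cast (card_le_card inter_subset_right).trans ((card_union_le _ _).trans
        (Nat.add_le_add_left ha.2.2 _))
    nlinarith [mul_le_mul_of_nonneg_left h1 c0, mul_le_mul_of_nonneg_left h2
      (mul_nonneg (mul_nonneg c0 β0) p0)]

/-- the invariant of the exploration of `Γ` -/
structure Iv (τ : V → C3) (Z : Finset V) (K : ℕ) (Γ : Finset (Sym2 V)) (z : V × C3) (i : ℕ)
    (s : Xs V) : Prop where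
  sub : s.P ⊆ s.R
  mem : z.1 ∈ s.R
  col : s.χ z.1 = z.2
  cnt : act K s → s.P.card = i
  all : ¬s.f → ∀ x ∈ s.R, al τ Z x (s.χ x)
  cl : ¬s.f → ∀ x ∈ s.P, ∀ y, y ≠ x → s(x, y) ∈ Γ → al τ Z y (s.χ x) → y ∈ s.R ∧ s.χ y ≠ s.χ x

theorem Iv.next {Γ : Finset (Sym2 V)} {z : V × C3} {i : ℕ} {s : Xs V} (h : Iv τ Z K Γ z i s) :
    Iv τ Z K Γ z (i + 1) ((mc τ Z K v₀).nx s Γ) := by
  simp only [mc]
  split_ifs with ha
  swap
  · exact ⟨h.sub, h.mem, h.col, fun h' => (ha h').elim, h.all, h.cl⟩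
  obtain ⟨x1, x2⟩ := mem_sdiff.1 (px_mem (v₀ := v₀) ha)
  have key : ¬(st τ Z v₀ s (ht τ Z v₀ s Γ)).f → ∀ y ∈ ht τ Z v₀ s Γ, y ∉ Z ∧ y ∉ s.R ∧
      -τ y - s.χ (px v₀ s) ≠ τ y ∧ -τ y - s.χ (px v₀ s) ≠ s.χ (px v₀ s) := fun hf y hy =>
    have h1 := not_or.1 fun h => hf ⟨y, mem_union.2 h, hy⟩
    ⟨h1.1, h1.2, third_ne ((mem_filter.1 (mem_filter.1 hy).1).2.2.2.2 h1.1)⟩
  refine ⟨insert_subset (mem_union_left _ x1) (h.sub.trans subset_union_left),
    mem_union_left _ h.mem, (if_pos h.mem).trans h.col,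
    fun _ => (card_insert_of_notMem x2).trans (by rw [h.cnt ha]), fun hf y hy => ?_,
    fun hf x hx y h1 h2 h3 => ?_⟩
  · simp only [st]
    split_ifs with h1
    · exact h.all ha.1 y h1
    · have := key hf y ((mem_union.1 hy).resolve_left h1)
      exact ⟨fun h => (this.1 h).elim, fun _ => this.2.2.1⟩
  have hx' : x ∈ s.R := (mem_insert.1 hx).elim (fun e => e ▸ x1) fun h' => h.sub h'
  simp only [st, if_pos hx'] at h3 ⊢
  rcases mem_insert.1 hx with rfl | hx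
  · by_cases h4 : y ∈ s.P
    · rw [if_pos (h.sub h4)]
      exact ⟨mem_union_left _ (h.sub h4), fun e => (h.cl ha.1 y h4 _ h1.symm
        (Sym2.eq_swap ▸ h2) (e ▸ h.all ha.1 _ x1)).2 e.symm⟩
    · have h5 : y ∈ ht τ Z v₀ s Γ := mem_filter.2 ⟨mem_filter.2 ⟨mem_univ _, h4, h1, h3⟩, h2⟩
      rw [if_neg (key hf y h5).2.1]
      exact ⟨mem_union_right _ h5, (key hf y h5).2.2.2⟩
  · have := h.cl ha.1 x hx y h1 h2 h3
    rw [if_pos this.1]
    exact ⟨mem_union_left _ this.1, this.2⟩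

theorem Iv.fin {Γ : Finset (Sym2 V)} {z : V × C3} {s : Xs V} (h : Iv τ Z K Γ z (K + 1) s)
    {r β : ℝ} (r0 : 0 ≤ r) (rβ : r ≤ β) (β1 : β ≤ 1) :
    ind (¬Good τ Z K Γ z) ≤ 1 + β ^ K + -pot r β s := by
  have β0 := r0.trans rβ
  have h1 : pot r β s ≤ β ^ s.R.card := by
    rw [pot]
    split_ifs
    · positivity
    · rw [← card_sdiff_add_card_eq_card h.sub, pow_add]
      gcongr
  refine (em (Good τ Z K Γ z)).elim (fun hg => ?_) fun hg => ?_
  · rw [ind_neg (not_not.2 hg)]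
    linarith [pow_le_one₀ (n := s.R.card) β0 β1, pow_nonneg β0 K]
  rw [ind_pos hg]
  by_cases hf : s.f
  · rw [pot, if_pos hf]
    linarith [pow_nonneg β0 K]
  by_cases hK : s.R.card ≤ K
  · by_cases hn : (s.R \ s.P).Nonempty
    · have := card_le_card h.sub
      have := h.cnt ⟨hf, hn, hK⟩
      omega
    · rw [not_nonempty_iff_eq_empty, sdiff_eq_empty_iff_subset] at hn
      exact (hg ⟨s.R, s.χ, fun x hx => ⟨h.all hf x hx, h.cl hf x (hn hx)⟩, h.mem, h.col, hK⟩).elim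
  · linarith [pow_le_pow_of_le_one β0 β1 (not_le.1 hK).le]

theorem bound {r β p : ℝ} (r0 : 0 ≤ r) (rβ : r ≤ β) (β1 : β ≤ 1) (p0 : 0 ≤ p) (p1 : p ≤ 1)
    (h : ∀ c (W : Finset V), (∀ y ∈ W, al τ Z y c) →
      r ≤ β * ((1 - p + p * r) ^ W.card - p * (Z.card + K))) {z : V × C3} (hz : al τ Z z.1 z.2) :
    Ex p univ (fun Γ => ind (¬Good τ Z K Γ z)) ≤ 1 + β ^ K - r := by
  let s₀ : Xs V := ⟨∅, {z.1}, fun _ => z.2, False⟩
  have h1 := mart₀ (mc τ Z K z.1) p0 p1 (fun s => -pot r β s)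
    (fun s _ => step r0 (rβ.trans β1) (r0.trans rβ) p0 p1 h s) (K + 1) s₀ univ trivial
    (subset_univ _)
  have h2 : ∀ Γ i, Iv τ Z K Γ z i ((mc τ Z K z.1).at Γ s₀ i) := fun Γ i => by
    induction i with
    | zero =>
      exact ⟨empty_subset _, mem_singleton_self _, rfl, fun _ => rfl,
        fun _ x hx => mem_singleton.1 hx ▸ hz, fun _ x hx => absurd hx (notMem_empty _)⟩
    | succ i ih =>
      rw [Mach.at_succ']
      exact ih.next
  refine (Ex_mono p0 p1 fun Γ _ => (h2 Γ (K + 1)).fin r0 rβ β1).trans ?_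
  rw [Ex_add, Ex_const]
  have h3 : pot r β s₀ = r := by simp [pot, s₀]
  linarith

theorem num {a p : ℝ} {m : ℕ} (a0 : 0 < a) (a1 : a ≤ 1 / 2) (p0 : 0 ≤ p) (p1 : p ≤ 1)
    (h : p * (m + 2) ≤ 1 + a / 8) : 1 - a + a ^ 2 / 8 ≤ (1 - p + p * (1 - a)) ^ m := by
  have t0 : 0 ≤ p * a := by positivity
  have t1 : p * a ≤ 1 := by nlinarith
  have h1 : 1 + ((m / 2 + 1 : ℕ) : ℝ) * -(p * a) ≤ (1 + -(p * a)) ^ (m / 2 + 1) :=
    one_add_mul_le_pow (by linarith) _
  have h2 : 2 * ((m / 2 + 1 : ℕ) : ℝ) ≤ m + 2 := by exact_mod_cast (by omega)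
  have h3 : 1 - a * (1 + a / 8) / 2 ≤ (1 + -(p * a)) ^ (m / 2 + 1) := by
    nlinarith [mul_le_mul_of_nonneg_left h2 t0, mul_le_mul_of_nonneg_left h a0.le]
  have h4 := pow_le_pow_left₀ (by nlinarith) h3 2
  rw [← pow_mul] at h4
  have h5 := pow_le_pow_of_le_one (a := 1 + -(p * a)) (by linarith) (by linarith)
    (show m ≤ (m / 2 + 1) * 2 by omega)
  rw [show 1 - p + p * (1 - a) = 1 + -(p * a) by ring]
  nlinarith [mul_pos a0 a0, mul_pos (mul_pos a0 a0) a0, mul_pos (mul_pos a0 a0) (mul_pos a0 a0)]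

end AUT

theorem rowAUT : SAUT := by
  intro κ hκ
  obtain ⟨a, a0, a1, a2⟩ : ∃ a : ℝ, 0 < a ∧ a ≤ 1 / 2 ∧ a ≤ κ / 2 :=
    ⟨min (1 / 2) (κ / 2), by positivity, min_le_left _ _, min_le_right _ _⟩
  have d0 : 0 < 1 - a + a ^ 2 / 16 := by nlinarith
  have β1 : (1 - a) / (1 - a + a ^ 2 / 16) < 1 := (div_lt_one d0).2 (by nlinarith)
  obtain ⟨K, hK⟩ := exists_pow_lt_of_lt_one a0 β1
  obtain ⟨N, hN⟩ := exists_nat_ge (100 * (K + 2) / a ^ 2 : ℝ)
  refine ⟨a / 20, K, a ^ 2 / 200, N, by positivity, by positivity,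
    fun V _ _ τ Z p z hn hO p0 p1 hp hz => ?_⟩
  refine (AUT.bound (r := 1 - a) (by linarith) ((le_div_iff₀ d0).2 (by nlinarith)) β1.le p0 p1
    (fun c W hW => ?_) hz).trans (by linarith)
  have n1 : 100 * (K + 2) ≤ (Fintype.card V : ℝ) * a ^ 2 :=
    (div_le_iff₀ (by positivity)).1 (hN.trans (Nat.cast_le.2 hn))
  have n2 : p * (K + 2) ≤ a ^ 2 / 50 := by
    nlinarith [mul_le_mul_of_nonneg_left n1 p0, mul_le_mul_of_nonneg_right hp (sq_nonneg a)]
  have n3 : (W.card : ℝ) + (Ty τ Z c).card ≤ Fintype.card V := by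
    rw [← Nat.cast_add, Nat.cast_le, ← card_union_of_disjoint (disjoint_left.2 fun y h1 h2 =>
      (hW y h1).2 (mem_Ty.1 h2).1 (mem_Ty.1 h2).2.symm)]
    exact card_le_univ _
  have n4 := hO c
  have n5 := hO.le.1
  have k0 : (0 : ℝ) ≤ p * K := by positivity
  have n6 : p * W.card ≤ (3 / 2 + a / 20) * (2 / 3 + a ^ 2 / 200) :=
    (mul_le_mul_of_nonneg_left (show (W.card : ℝ) ≤ Fintype.card V * (2 / 3 + a ^ 2 / 200) by
      linarith) p0).trans (by rw [← mul_assoc]; gcongr)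
  have n7 : p * Z.card ≤ (3 / 2 + a / 20) * (3 * (a ^ 2 / 200)) :=
    (mul_le_mul_of_nonneg_left (n5.trans_eq (mul_comm _ _)) p0).trans (by rw [← mul_assoc]; gcongr)
  have n8 := AUT.num (m := W.card) a0 a1 p0 p1 (by nlinarith [mul_pos a0 a0])
  rw [div_mul_eq_mul_div, le_div_iff₀ d0]
  refine mul_le_mul_of_nonneg_left ?_ (by linarith)
  nlinarith [mul_pos a0 a0]

end Pool.Agent.MP_81f5b7_pr.H66
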